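import Pool.Agent.W966.Vf.Stms

/-! Project VF, part FIN: the local domain is finite over the power series ring. -/

set_option autoImplicit false

namespace Pool.Agent.W411.VF.Fin1

open MvPolynomial
open Pool.Agent.W966.Vf

lemma mem_orig' {ρ Ω : Type} [Field Ω] (P : MvPolynomial ρ (PowerSeries Ω)) :
    P ∈ orig' ρ Ω ↔
      PowerSeries.constantCoeff (MvPolynomial.eval (fun _ : ρ => (0 : PowerSeries Ω)) P) = 0 :=
  Iff.rfl

lemma sub_eval_zero_mem {ρ S : Type} [CommRing S] (p : Ideal (MvPolynomial ρ S))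
    (h : ∀ v, (X v : MvPolynomial ρ S) ∈ p) (P : MvPolynomial ρ S) :
    P - C (MvPolynomial.eval (fun _ : ρ => (0 : S)) P) ∈ p := by
  induction P using MvPolynomial.induction_on with
  | C a => simp
  | add a b ha hb =>
    have : a + b - C (MvPolynomial.eval (fun _ : ρ => (0 : S)) (a + b))
        = (a - C (MvPolynomial.eval (fun _ : ρ => (0 : S)) a))
          + (b - C (MvPolynomial.eval (fun _ : ρ => (0 : S)) b)) := by
      rw [map_add, map_add]
      ring
    rw [this]
    exact p.add_mem ha hb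
  | mul_X a v ha =>
    rw [map_mul, eval_X, mul_zero, map_zero, sub_zero]
    exact p.mul_mem_left _ (h v)

lemma orig'_le {ρ Ω : Type} [Field Ω] (p : Ideal (MvPolynomial ρ (PowerSeries Ω)))
    (h : ∀ v, (X v : MvPolynomial ρ (PowerSeries Ω)) ∈ p)
    (hs : C (PowerSeries.X : PowerSeries Ω) ∈ p) : orig' ρ Ω ≤ p := by
  intro P hP
  rw [mem_orig', ← PowerSeries.X_dvd_iff] at hP
  obtain ⟨g, hg⟩ := hP
  have h1 := sub_eval_zero_mem p h P
  rw [hg, map_mul] at h1
  have h2 : C (PowerSeries.X : PowerSeries Ω) * C g ∈ p := p.mul_mem_right _ hs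
  have h3 := p.add_mem h1 h2
  rwa [sub_add_cancel] at h3

section core

variable {Ω ρ : Type} [Field Ω] [Fintype ρ] [DecidableEq ρ] {D : Type} [CommRing D]
  [Algebra (PowerSeries Ω) D] (h : ρ → D) (M : ℕ)

/-- the monomials -/
noncomputable def bb (α : ρ → Fin M) : D := ∏ v, h v ^ (α v : ℕ)

/-- image of a constant -/
noncomputable def cc (a : Ω) : D := algebraMap (PowerSeries Ω) D (PowerSeries.C a)

/-- image of the variable -/
noncomputable def ss (Ω D : Type) [Field Ω] [CommRing D] [Algebra (PowerSeries Ω) D] : D :=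
  algebraMap (PowerSeries Ω) D PowerSeries.X

/-- elements represented by constants modulo `s` -/
def Rep (x : D) : Prop :=
  ∃ (c : (ρ → Fin M) → Ω) (d : D), x = ∑ α, cc (D := D) (c α) * bb h M α + ss Ω D * d

variable {h M}

lemma Rep.add {x y : D} (hx : Rep (Ω := Ω) h M x) (hy : Rep (Ω := Ω) h M y) :
    Rep (Ω := Ω) h M (x + y) := by
  obtain ⟨c, d, rfl⟩ := hx
  obtain ⟨c', d', rfl⟩ := hy
  refine ⟨fun α => c α + c' α, d + d', ?_⟩
  have : ∀ α, cc (Ω := Ω) (D := D) (c α + c' α) * bb h M α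
      = cc (D := D) (c α) * bb h M α + cc (D := D) (c' α) * bb h M α := by
    intro α
    unfold cc
    rw [map_add, map_add, add_mul]
  simp_rw [this]
  rw [Finset.sum_add_distrib]
  ring

lemma rep_s (d : D) : Rep (Ω := Ω) h M (ss Ω D * d) :=
  ⟨fun _ => 0, d, by simp [cc]⟩

lemma rep_zero : Rep (Ω := Ω) h M (0 : D) := by
  have := rep_s (Ω := Ω) (h := h) (M := M) (0 : D)
  rwa [mul_zero] at this

lemma rep_mon (hM : ∀ v, ∃ d : D, h v ^ M = ss Ω D * d) (f : PowerSeries Ω) (β : ρ → ℕ) :
    Rep (Ω := Ω) h M (algebraMap (PowerSeries Ω) D f * ∏ v, h v ^ β v) := by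
  classical
  by_cases hβ : ∀ v, β v < M
  · -- f = C f0 + X f'
    have h1 : ∃ g : PowerSeries Ω, f = PowerSeries.C (PowerSeries.constantCoeff f)
        + PowerSeries.X * g := by
      have h2 : (PowerSeries.X : PowerSeries Ω) ∣ f - PowerSeries.C (PowerSeries.constantCoeff f) := by
        rw [PowerSeries.X_dvd_iff]
        simp
      obtain ⟨g, hg⟩ := h2
      exact ⟨g, by rw [← hg]; ring⟩
    obtain ⟨g, hg⟩ := h1
    let α0 : ρ → Fin M := fun v => ⟨β v, hβ v⟩
    refine ⟨fun α => if α = α0 then PowerSeries.constantCoeff f else 0,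
      algebraMap (PowerSeries Ω) D g * ∏ v, h v ^ β v, ?_⟩
    rw [Finset.sum_eq_single α0]
    · beta_reduce
      rw [if_pos rfl]
      have h3 : bb h M α0 = ∏ v, h v ^ β v := rfl
      rw [h3]
      conv_lhs => rw [hg]
      unfold cc ss
      rw [map_add, map_mul]
      ring
    · intro α _ hα
      beta_reduce
      rw [if_neg hα]
      simp [cc]
    · intro h4
      exact absurd (Finset.mem_univ _) h4
  · push Not at hβ
    obtain ⟨v, hv⟩ := hβ
    obtain ⟨d, hd⟩ := hM v
    have h1 : ∏ v, h v ^ β v = ss Ω D * (d * h v ^ (β v - M) * ∏ w ∈ Finset.univ.erase v, h w ^ β w) := by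
      rw [← Finset.mul_prod_erase Finset.univ _ (Finset.mem_univ v)]
      have h2 : h v ^ β v = ss Ω D * d * h v ^ (β v - M) := by
        rw [← hd, ← pow_add]
        congr 1
        omega
      rw [h2]
      ring
    rw [h1]
    have h2 : algebraMap (PowerSeries Ω) D f *
        (ss Ω D * (d * h v ^ (β v - M) * ∏ w ∈ Finset.univ.erase v, h w ^ β w))
        = ss Ω D * (algebraMap (PowerSeries Ω) D f *
          (d * h v ^ (β v - M) * ∏ w ∈ Finset.univ.erase v, h w ^ β w)) := by ring
    rw [h2]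
    exact rep_s _

lemma rep_sum {κ : Type} (s : Finset κ) (F : κ → D) (hF : ∀ i ∈ s, Rep (Ω := Ω) h M (F i)) :
    Rep (Ω := Ω) h M (∑ i ∈ s, F i) := by
  classical
  induction s using Finset.induction_on with
  | empty => simpa using rep_zero
  | insert a s ha ih =>
    rw [Finset.sum_insert ha]
    exact (hF a (Finset.mem_insert_self _ _)).add
      (ih fun i hi => hF i (Finset.mem_insert_of_mem hi))

lemma rep_aeval (hM : ∀ v, ∃ d : D, h v ^ M = ss Ω D * d) (a : MvPolynomial ρ (PowerSeries Ω)) :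
    Rep (Ω := Ω) h M (aeval h a) := by
  rw [aeval_def, eval₂_eq']
  exact rep_sum _ _ fun β _ => rep_mon hM _ _

lemma aeval_mem_radical (hrad : ∀ v, h v ∈ (Ideal.span {ss Ω D}).radical)
    {z : MvPolynomial ρ (PowerSeries Ω)} (hz : z ∈ orig' ρ Ω) :
    aeval h z ∈ (Ideal.span {ss Ω D}).radical := by
  have h1 := orig'_le (Ideal.comap (aeval (R := PowerSeries Ω) h) (Ideal.span {ss Ω D}).radical)
    (fun v => by rw [Ideal.mem_comap, aeval_X]; exact hrad v)
    (by
      rw [Ideal.mem_comap, aeval_C]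
      exact Ideal.le_radical (Ideal.subset_span rfl))
  exact h1 hz

lemma rep_all (hrad : ∀ v, h v ∈ (Ideal.span {ss Ω D}).radical)
    (hM : ∀ v, ∃ d : D, h v ^ M = ss Ω D * d)
    (hgen : ∀ d : D, ∃ a u : MvPolynomial ρ (PowerSeries Ω), u ∉ orig' ρ Ω ∧
      aeval h u * d = aeval h a) (d : D) : Rep (Ω := Ω) h M d := by
  obtain ⟨a, u, hu, hua⟩ := hgen d
  set c : Ω := PowerSeries.constantCoeff (MvPolynomial.eval (fun _ : ρ => (0 : PowerSeries Ω)) u)
    with hc
  have hc0 : c ≠ 0 := hu
  set z : MvPolynomial ρ (PowerSeries Ω) := 1 - C (PowerSeries.C c⁻¹) * u with hz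
  have hzo : z ∈ orig' ρ Ω := by
    rw [mem_orig', hz]
    simp only [map_sub, map_one, map_mul, eval_C, PowerSeries.constantCoeff_C]
    rw [← hc, inv_mul_cancel₀ hc0, sub_self]
  have hzr := aeval_mem_radical hrad hzo
  obtain ⟨K, hK⟩ := hzr
  rw [Ideal.mem_span_singleton] at hK
  obtain ⟨e, he⟩ := hK
  have h1 : (1 - aeval h z) * ∑ i ∈ Finset.range K, (aeval h z) ^ i = 1 - (aeval h z) ^ K :=
    mul_neg_geom_sum _ _
  have h2 : (1 - aeval h z : D) = algebraMap (PowerSeries Ω) D (PowerSeries.C c⁻¹) * aeval h u := by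
    rw [hz, map_sub, map_one, map_mul, aeval_C]
    ring
  have h3 : d = aeval h (C (PowerSeries.C c⁻¹) * a * ∑ i ∈ Finset.range K, z ^ i)
      + ss Ω D * (e * d) := by
    rw [map_mul, map_mul, map_sum, aeval_C, ← hua]
    simp_rw [map_pow]
    rw [he, h2] at h1
    linear_combination (-d) * h1
  rw [h3]
  exact (rep_aeval hM _).add (rep_s _)

lemma core [IsDomain D] [IsNoetherianRing D] (hs : ¬ IsUnit (ss Ω D))
    (hrad : ∀ v, h v ∈ (Ideal.span {ss Ω D}).radical)
    (hgen : ∀ d : D, ∃ a u : MvPolynomial ρ (PowerSeries Ω), u ∉ orig' ρ Ω ∧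
      aeval h u * d = aeval h a) : Module.Finite (PowerSeries Ω) D := by
  classical
  -- a common exponent
  have hM : ∃ M : ℕ, ∀ v, ∃ d : D, h v ^ M = ss Ω D * d := by
    have h1 : ∀ v, ∃ m : ℕ, ∃ d : D, h v ^ m = ss Ω D * d := by
      intro v
      obtain ⟨m, hm⟩ := hrad v
      rw [Ideal.mem_span_singleton] at hm
      exact ⟨m, hm⟩
    choose m d hmd using h1
    refine ⟨∑ v, m v, fun v => ⟨d v * h v ^ (∑ v, m v - m v), ?_⟩⟩
    rw [← mul_assoc, ← hmd v, ← pow_add]
    congr 1
    have := Finset.single_le_sum (f := m) (fun _ _ => Nat.zero_le _) (Finset.mem_univ v)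
    omega
  obtain ⟨M, hM⟩ := hM
  have hR := rep_all hrad hM hgen
  choose c nx hcn using hR
  refine ⟨⟨Finset.univ.image (bb h M), ?_⟩⟩
  rw [eq_top_iff]
  intro d _
  set dd : ℕ → D := fun i => nx^[i] d with hdd
  set f : (ρ → Fin M) → PowerSeries Ω := fun α => PowerSeries.mk fun i => c (dd i) α with hf
  have hdds : ∀ i, dd (i + 1) = nx (dd i) := fun i => by
    rw [hdd]
    exact Function.iterate_succ_apply' _ _ _
  have hstep : ∀ k : ℕ, d = ∑ α, algebraMap (PowerSeries Ω) D
      (∑ i ∈ Finset.range k, PowerSeries.C (c (dd i) α) * PowerSeries.X ^ i) * bb h M α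
      + ss Ω D ^ k * dd k := by
    intro k
    induction k with
    | zero => simp [hdd]
    | succ k ih =>
      have h1 : dd k = ∑ α, cc (D := D) (c (dd k) α) * bb h M α + ss Ω D * dd (k + 1) := by
        rw [hdds]
        exact hcn (dd k)
      conv_lhs => rw [ih]
      simp_rw [Finset.sum_range_succ, map_add, add_mul]
      rw [Finset.sum_add_distrib, add_assoc]
      congr 1
      conv_lhs => rw [h1]
      rw [mul_add, Finset.mul_sum]
      congr 1
      · refine Finset.sum_congr rfl fun α _ => ?_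
        unfold cc ss
        rw [map_mul, map_pow]
        ring
      · rw [pow_succ]
        ring
  have hdiv : ∀ k : ℕ, d - ∑ α, algebraMap (PowerSeries Ω) D (f α) * bb h M α
      ∈ Ideal.span {ss Ω D} ^ k := by
    intro k
    have h1 : ∀ α, ∃ g : PowerSeries Ω, f α
        - ∑ i ∈ Finset.range k, PowerSeries.C (c (dd i) α) * PowerSeries.X ^ i
        = PowerSeries.X ^ k * g := by
      intro α
      have h2 : (PowerSeries.X : PowerSeries Ω) ^ k ∣ f α
        - ∑ i ∈ Finset.range k, PowerSeries.C (c (dd i) α) * PowerSeries.X ^ i := by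
        rw [PowerSeries.X_pow_dvd_iff]
        intro m hm
        rw [map_sub, map_sum, hf]
        simp only [PowerSeries.coeff_mk, PowerSeries.coeff_C_mul_X_pow]
        rw [Finset.sum_ite_eq (Finset.range k) m (fun i => c (dd i) α),
          if_pos (Finset.mem_range.mpr hm), sub_self]
      exact h2
    choose g hg using h1
    rw [Ideal.span_singleton_pow, Ideal.mem_span_singleton]
    refine ⟨dd k - ∑ α, algebraMap (PowerSeries Ω) D (g α) * bb h M α, ?_⟩
    have h2 : ∑ α, algebraMap (PowerSeries Ω) D (f α) * bb h M α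
        = ∑ α, algebraMap (PowerSeries Ω) D
      (∑ i ∈ Finset.range k, PowerSeries.C (c (dd i) α) * PowerSeries.X ^ i) * bb h M α
        + ss Ω D ^ k * ∑ α, algebraMap (PowerSeries Ω) D (g α) * bb h M α := by
      rw [Finset.mul_sum, ← Finset.sum_add_distrib]
      refine Finset.sum_congr rfl fun α _ => ?_
      have h3 : f α = ∑ i ∈ Finset.range k, PowerSeries.C (c (dd i) α) * PowerSeries.X ^ i
          + PowerSeries.X ^ k * g α := by
        rw [← hg α]
        ring
      rw [h3, map_add, map_mul, map_pow]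
      unfold ss
      ring
    rw [h2]
    linear_combination hstep k
  have hzero : d - ∑ α, algebraMap (PowerSeries Ω) D (f α) * bb h M α = 0 := by
    have h1 : d - ∑ α, algebraMap (PowerSeries Ω) D (f α) * bb h M α
        ∈ (⨅ k : ℕ, Ideal.span {ss Ω D} ^ k : Ideal D) := by
      rw [Ideal.mem_iInf]
      exact hdiv
    rw [Ideal.iInf_pow_eq_bot_of_isDomain] at h1
    · exact h1
    · intro h2
      exact hs (Ideal.span_singleton_eq_top.mp h2)
  rw [sub_eq_zero] at hzero
  rw [hzero]
  refine Submodule.sum_mem _ fun α _ => ?_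
  rw [← Algebra.smul_def]
  refine Submodule.smul_mem _ _ (Submodule.subset_span ?_)
  simp

end core

lemma fin_aux {Ω ρ : Type} [Field Ω] [Fintype ρ] (q : Ideal (MvPolynomial ρ (PowerSeries Ω)))
    (hqo : q ≤ orig' ρ Ω) (hX : C (PowerSeries.X : PowerSeries Ω) ∉ q)
    (hmin : ∀ p : Ideal (MvPolynomial ρ (PowerSeries Ω)), p.IsPrime → q ≤ p → p ≤ orig' ρ Ω →
        C (PowerSeries.X : PowerSeries Ω) ∈ p → p = orig' ρ Ω)
    (B : Type) [CommRing B] [IsDomain B] [IsNoetherianRing B] [Algebra (PowerSeries Ω) B]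
    (π : MvPolynomial ρ (PowerSeries Ω) →ₐ[PowerSeries Ω] B) (hπ : Function.Surjective π)
    (hker : ∀ x, π x = 0 ↔ x ∈ q) :
    ∃ (D : Type) (_ : CommRing D) (_ : IsDomain D) (_ : Algebra (PowerSeries Ω) D)
      (h : ρ → D), Module.Finite (PowerSeries Ω) D ∧
      Function.Injective (algebraMap (PowerSeries Ω) D) ∧
      (∀ p ∈ q, MvPolynomial.aeval h p = 0) ∧
      ∀ v, ∃ (m : ℕ) (d : D), 0 < m ∧ h v ^ m = algebraMap (PowerSeries Ω) D PowerSeries.X * d := by
  classical
  have hprime : (orig' ρ Ω).IsPrime := RingHom.ker_isPrime _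
  let n' : Ideal B := (orig' ρ Ω).map π
  have hn' : n'.IsPrime := by
    refine Ideal.map_isPrime_of_surjective (f := π) hπ ?_
    intro x hx
    exact hqo ((hker x).mp hx)
  have hmem : ∀ P : MvPolynomial ρ (PowerSeries Ω), π P ∈ n' ↔ P ∈ orig' ρ Ω := by
    intro P
    constructor
    · intro h
      obtain ⟨Q, hQ, hQP⟩ := (Ideal.mem_map_iff_of_surjective π hπ).mp h
      have h1 : P - Q ∈ q := by
        rw [← hker, map_sub, hQP, sub_self]
      have h2 := (orig' ρ Ω).add_mem (hqo h1) hQ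
      rwa [sub_add_cancel] at h2
    · exact fun h => Ideal.mem_map_of_mem _ h
  let D := Localization.AtPrime n'
  have hD : IsDomain D := IsLocalization.isDomain_localization n'.primeCompl_le_nonZeroDivisors
  have hinj : Function.Injective (algebraMap B D) :=
    IsLocalization.injective D n'.primeCompl_le_nonZeroDivisors
  have hND : IsNoetherianRing D := IsLocalization.isNoetherianRing n'.primeCompl D inferInstance
  let hh : ρ → D := fun v => algebraMap B D (π (X v))
  have hC : ∀ f : PowerSeries Ω, π (C f) = algebraMap (PowerSeries Ω) B f := fun f => π.commutes f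
  have hDB : ∀ f : PowerSeries Ω, algebraMap (PowerSeries Ω) D f
      = algebraMap B D (algebraMap (PowerSeries Ω) B f) := fun f => rfl
  have haev : ∀ P : MvPolynomial ρ (PowerSeries Ω), aeval hh P = algebraMap B D (π P) := by
    intro P
    induction P using MvPolynomial.induction_on with
    | C a => rw [aeval_C, hC, hDB]
    | add a b ha hb => rw [map_add, ha, hb, map_add, map_add]
    | mul_X a v ha => rw [map_mul, ha, aeval_X, map_mul, map_mul]
  have hss : ss Ω D = algebraMap B D (π (C PowerSeries.X)) := by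
    rw [hC, ← hDB]
    rfl
  have hs0 : ss Ω D ≠ 0 := by
    rw [hss]
    intro h
    have h1 := hinj (h.trans (map_zero _).symm)
    exact hX ((hker _).mp h1)
  have hunit : ∀ P : MvPolynomial ρ (PowerSeries Ω), P ∉ orig' ρ Ω →
      IsUnit (algebraMap B D (π P)) := by
    intro P hP
    exact IsLocalization.map_units D (⟨π P, fun h => hP ((hmem P).mp h)⟩ : n'.primeCompl)
  have hsX : (C PowerSeries.X : MvPolynomial ρ (PowerSeries Ω)) ∈ orig' ρ Ω := by
    rw [mem_orig']
    simp
  have hXo : ∀ v, (X v : MvPolynomial ρ (PowerSeries Ω)) ∈ orig' ρ Ω := by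
    intro v
    rw [mem_orig']
    simp
  have hsu : ¬ IsUnit (ss Ω D) := by
    rw [hss]
    intro h
    have h1 := (IsLocalization.AtPrime.isUnit_to_map_iff D n' (π (C PowerSeries.X))).mp h
    exact h1 ((hmem _).mpr hsX)
  have hrad : ∀ v, hh v ∈ (Ideal.span {ss Ω D}).radical := by
    intro v
    rw [Ideal.radical_eq_sInf, Ideal.mem_sInf]
    rintro P ⟨hP1, hP2⟩
    have hs : ss Ω D ∈ P := hP1 (Ideal.subset_span rfl)
    let φ : MvPolynomial ρ (PowerSeries Ω) →+* D := (algebraMap B D).comp (π : _ →+* B)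
    have h1 : Ideal.comap φ P = orig' ρ Ω := by
      refine hmin _ (Ideal.IsPrime.comap φ) ?_ ?_ ?_
      · intro x hx
        rw [Ideal.mem_comap]
        have : φ x = 0 := by
          change algebraMap B D (π x) = 0
          rw [(hker x).mpr hx, map_zero]
        rw [this]
        exact P.zero_mem
      · intro x hx
        by_contra hxo
        exact hP2.ne_top (Ideal.eq_top_of_isUnit_mem P (Ideal.mem_comap.mp hx) (hunit x hxo))
      · rw [hss] at hs
        exact hs
    have h2 : (X v : MvPolynomial ρ (PowerSeries Ω)) ∈ Ideal.comap φ P := by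
      rw [h1]
      exact hXo v
    exact h2
  have hgen : ∀ d : D, ∃ a u : MvPolynomial ρ (PowerSeries Ω), u ∉ orig' ρ Ω ∧
      aeval hh u * d = aeval hh a := by
    intro d
    obtain ⟨⟨x, y⟩, hxy⟩ := IsLocalization.surj n'.primeCompl d
    obtain ⟨a, ha⟩ := hπ x
    obtain ⟨u, hu⟩ := hπ (y : B)
    refine ⟨a, u, ?_, ?_⟩
    · intro h
      apply y.2
      change (y : B) ∈ n'
      rw [← hu]
      exact (hmem u).mpr h
    · rw [haev, haev, ha, hu, mul_comm]
      exact hxy
  refine ⟨D, inferInstance, hD, inferInstance, hh, core hsu hrad hgen, ?_, ?_, ?_⟩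
  · rw [injective_iff_map_eq_zero]
    intro f hf
    by_contra hf0
    obtain ⟨k, u, hu⟩ : ∃ (k : ℕ) (u : PowerSeries Ω), IsUnit u ∧ f = PowerSeries.X ^ k * u := by
      have h1 := IsDiscreteValuationRing.eq_unit_mul_pow_irreducible hf0
        (PowerSeries.X_irreducible (R := Ω))
      obtain ⟨k, u, hu⟩ := h1
      exact ⟨k, u, u.isUnit, by rw [hu, mul_comm]⟩
    obtain ⟨hu1, hu2⟩ := hu
    rw [hu2, map_mul, map_pow] at hf
    rcases mul_eq_zero.mp hf with h1 | h1
    · exact pow_ne_zero k hs0 h1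
    · exact (hu1.map (algebraMap (PowerSeries Ω) D)).ne_zero h1
  · intro p hp
    rw [haev, (hker p).mpr hp, map_zero]
  · intro v
    obtain ⟨m, hm⟩ := hrad v
    rw [Ideal.mem_span_singleton] at hm
    obtain ⟨e, he⟩ := hm
    refine ⟨m + 1, e * hh v, by omega, ?_⟩
    rw [pow_succ, he]
    change ss Ω D * e * hh v = ss Ω D * (e * hh v)
    ring

theorem fin_main : S_FIN := by
  intro Ω ρ _ _ q hq hqo hX hmin
  have hBd : IsDomain (MvPolynomial ρ (PowerSeries Ω) ⧸ q) := Ideal.Quotient.isDomain q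
  exact fin_aux q hqo hX hmin (MvPolynomial ρ (PowerSeries Ω) ⧸ q)
    (Ideal.Quotient.mkₐ (PowerSeries Ω) q) (Ideal.Quotient.mkₐ_surjective _ _)
    (fun x => Ideal.Quotient.eq_zero_iff_mem)

end Pool.Agent.W411.VF.Fin1
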