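import Pool.Agent.W966.Vf.Stms

/-! Project VF, part MIN. -/

set_option autoImplicit false

namespace Pool.Agent.W411.VF

open MvPolynomial
open Pool.Agent.W966.Vf

lemma mem_orig' {ρ Ω : Type} [Field Ω] (P : MvPolynomial ρ (PowerSeries Ω)) :
    P ∈ orig' ρ Ω ↔
      PowerSeries.constantCoeff (MvPolynomial.eval (fun _ : ρ => (0 : PowerSeries Ω)) P) = 0 :=
  Iff.rfl

lemma mem_orig {ρ S : Type} [CommRing S] (P : MvPolynomial ρ S) :
    P ∈ orig ρ S ↔ MvPolynomial.eval (fun _ : ρ => (0 : S)) P = 0 :=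
  Iff.rfl

lemma sub_eval_zero_mem {ρ S : Type} [CommRing S] (p : Ideal (MvPolynomial ρ S))
    (h : ∀ v, (X v : MvPolynomial ρ S) ∈ p) (P : MvPolynomial ρ S) :
    P - C (MvPolynomial.eval (fun _ : ρ => (0 : S)) P) ∈ p := by
  induction P using MvPolynomial.induction_on with
  | C a => simp
  | add a b ha hb =>
    have : a + b - C (MvPolynomial.eval (fun _ : ρ => (0 : S)) (a + b))
        = (a - C (MvPolynomial.eval (fun _ : ρ => (0 : S)) a))
          + (b - C (MvPolynomial.eval (fun _ : ρ => (0 : S)) b)) := by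
      rw [map_add, map_add]
      ring
    rw [this]
    exact p.add_mem ha hb
  | mul_X a v ha =>
    rw [map_mul, eval_X, mul_zero, map_zero, sub_zero]
    exact p.mul_mem_left _ (h v)

lemma orig'_le {ρ Ω : Type} [Field Ω] (p : Ideal (MvPolynomial ρ (PowerSeries Ω)))
    (h : ∀ v, (X v : MvPolynomial ρ (PowerSeries Ω)) ∈ p)
    (hs : C (PowerSeries.X : PowerSeries Ω) ∈ p) : orig' ρ Ω ≤ p := by
  intro P hP
  rw [mem_orig', ← PowerSeries.X_dvd_iff] at hP
  obtain ⟨g, hg⟩ := hP
  have h1 := sub_eval_zero_mem p h P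
  rw [hg, map_mul] at h1
  have h2 : C (PowerSeries.X : PowerSeries Ω) * C g ∈ p := p.mul_mem_right _ hs
  have h3 := p.add_mem h1 h2
  rwa [sub_add_cancel] at h3

lemma orig'_isPrime (ρ Ω : Type) [Field Ω] : (orig' ρ Ω).IsPrime := RingHom.ker_isPrime _

theorem min_main (h2 : S_HT2) : S_MIN := by
  intro Ω₁ Ω ρ _ _ _ _ F γ hF
  classical
  have hprime : (orig' ρ Ω).IsPrime := orig'_isPrime ρ Ω
  set φ : MvPolynomial ρ Ω₁ →+* MvPolynomial ρ (PowerSeries Ω) :=
    MvPolynomial.map (algebraMap Ω₁ (PowerSeries Ω)) with hφ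
  set f : ρ → MvPolynomial ρ (PowerSeries Ω) := fun a =>
    φ (F a) - C (PowerSeries.C (γ a) * PowerSeries.X) with hf
  have hev : ∀ P : MvPolynomial ρ Ω₁,
      PowerSeries.constantCoeff (MvPolynomial.eval (fun _ : ρ => (0 : PowerSeries Ω)) (φ P))
        = algebraMap Ω₁ Ω (MvPolynomial.eval (fun _ : ρ => (0 : Ω₁)) P) := by
    intro P
    rw [hφ]
    induction P using MvPolynomial.induction_on with
    | C a =>
      rw [map_C, eval_C, eval_C, PowerSeries.algebraMap_apply]
      simp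
    | add a b ha hb => rw [map_add, map_add, map_add, ha, hb, map_add, map_add]
    | mul_X a v _ =>
      rw [map_mul, map_mul, map_mul, map_X, eval_X, map_zero, mul_zero, map_mul, eval_X, mul_zero,
        map_zero]
  have hI : Ideal.span (Set.range f) ≤ orig' ρ Ω := by
    rw [Ideal.span_le]
    rintro _ ⟨a, rfl⟩
    change f a ∈ orig' ρ Ω
    rw [mem_orig', hf]
    simp only [map_sub, eval_C, map_mul, PowerSeries.constantCoeff_X, mul_zero, sub_zero]
    rw [hev, (mem_orig (F a)).mp (hF.1 a), map_zero]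
  obtain ⟨q, hqmin, hq⟩ := Ideal.exists_minimalPrimes_le hI
  have hqp : q.IsPrime := hqmin.1.1
  have hfq : ∀ a, f a ∈ q := fun a => hqmin.1.2 (Ideal.subset_span ⟨a, rfl⟩)
  have key : ∀ p : Ideal (MvPolynomial ρ (PowerSeries Ω)), p.IsPrime → q ≤ p → p ≤ orig' ρ Ω →
      C (PowerSeries.X : PowerSeries Ω) ∈ p → p = orig' ρ Ω := by
    intro p hp hqp' hpo hX
    refine le_antisymm hpo ?_
    have h1 : ∀ a, φ (F a) ∈ p := by
      intro a
      have h3 := hqp' (hfq a)
      have h4 : C (PowerSeries.C (γ a) * PowerSeries.X) ∈ p := by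
        rw [map_mul]
        exact p.mul_mem_left _ hX
      have h5 := p.add_mem h3 h4
      rwa [hf, sub_add_cancel] at h5
    have h3 : Ideal.comap φ p = orig ρ Ω₁ := by
      refine hF.2 _ (Ideal.IsPrime.comap φ) ?_ h1
      intro P hP
      have h4 := hpo (Ideal.mem_comap.mp hP)
      rw [mem_orig', hev] at h4
      rw [mem_orig]
      exact (map_eq_zero _).mp h4
    refine orig'_le p (fun v => ?_) hX
    have h4 : (X v : MvPolynomial ρ Ω₁) ∈ Ideal.comap φ p := by
      rw [h3, mem_orig, eval_X]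
    have h5 := Ideal.mem_comap.mp h4
    rwa [hφ, map_X] at h5
  refine ⟨q, hqp, hq, hfq, ?_, key⟩
  intro hX
  have hqo := key q hqp le_rfl hq hX
  have e1 : q.height ≤ ((Set.range f).ncard : ℕ∞) :=
    Ideal.height_le_card_of_mem_minimalPrimes_span (Set.finite_range f) hqmin
  have e2 : (Set.range f).ncard ≤ Fintype.card ρ := by
    rw [← Nat.card_eq_fintype_card, ← Nat.card_coe_set_eq]
    exact Finite.card_range_le f
  have e3 := h2 ρ Ω
  rw [← hqo] at e3
  have e4 : ((Fintype.card ρ + 1 : ℕ) : ℕ∞) ≤ (Fintype.card ρ : ℕ∞) :=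
    (e3.trans e1).trans (by exact_mod_cast e2)
  have e5 : Fintype.card ρ + 1 ≤ Fintype.card ρ := by exact_mod_cast e4
  omega

end Pool.Agent.W411.VF
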